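import Pool.Agent.Helper64.SPX.Spec

/-!
# SPX, part G4: locked tiles are rigid
-/

set_option autoImplicit false

open MeasureTheory Filter Topology Set
open scoped InnerProductSpace ENNReal

namespace Pool.Agent.Helper57.SPX.G4

open Pool.Agent.Helper64.SPX

variable {ι : Type} [Fintype ι]

theorem isClosed_body (Q : HP ι) : IsClosed Q.body := by
  have : Q.body = ⋂ i, {x | ⟪Q.u i, x⟫_ℝ ≤ Q.h i} := by
    ext x
    simp [HP.body]
  rw [this]
  exact isClosed_iInter fun i => isClosed_le (by fun_prop) continuous_const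

theorem volume_body_pos (Q : HP ι) (hQ : Q.Good) : 0 < volume Q.body := by
  obtain ⟨-, -, x, hx⟩ := hQ
  set U : Set (E ι) := ⋂ i, {x | ⟪Q.u i, x⟫_ℝ < Q.h i} with hU
  have hUo : IsOpen U := isOpen_iInter_of_finite fun i => isOpen_lt (by fun_prop) continuous_const
  have hUx : x ∈ U := mem_iInter.2 fun i => hx i
  have hUA : U ⊆ Q.body := fun y hy i => (mem_iInter.1 hy i).le
  exact (hUo.measure_pos volume ⟨x, hUx⟩).trans_le (measure_mono hUA)

/-- Translates of weak tilings. -/
theorem wtile_shift {A : Set (E ι)} (hA : MeasurableSet A) {ν : Measure (E ι)} (hν : WTile A ν)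
    {x : E ι} (hx : 1 ≤ ν {x}) : WTile A (ν.map fun t => t - x) := by
  obtain ⟨h1, h2, h3⟩ := hν
  have hm : Measurable (fun t : E ι => t - x) := measurable_sub_const x
  refine ⟨?_, ?_, ?_⟩
  · refine ⟨fun y => ?_⟩
    obtain ⟨U, hU, hUf⟩ := h1.finiteAtNhds (y + x)
    refine ⟨(fun t => t + x) ⁻¹' U, ?_, ?_⟩
    · exact (continuous_add_const x).continuousAt.preimage_mem_nhds hU
    · have h4 : (ν.map fun t => t - x) = ν.map (MeasurableEquiv.subRight x) := rfl
      rw [h4, MeasurableEquiv.map_apply]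
      have h5 : (MeasurableEquiv.subRight x) ⁻¹' ((fun t => t + x) ⁻¹' U) = U := by
        ext t
        show t - x + x ∈ U ↔ t ∈ U
        rw [sub_add_cancel]
      rw [h5]
      exact hUf
  · have h4 : ∀ᵐ y : E ι, ν {t | (y + x) - t ∈ A} = 1 :=
      (measurePreserving_add_right volume x).quasiMeasurePreserving.ae h2
    filter_upwards [h4] with y hy
    rw [Measure.map_apply hm]
    · rw [← hy]
      congr 1
      ext t
      simp only [mem_preimage, mem_ofPred_eq]
      rw [sub_sub_eq_add_sub]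
    · exact (measurable_const_sub y) hA
  · rw [Measure.map_apply hm (measurableSet_singleton 0)]
    have h4 : (fun t : E ι => t - x) ⁻¹' {0} = {x} := by
      ext t
      simp [sub_eq_zero]
    rw [h4]
    exact hx

theorem countable_lat (b : Module.Basis ι ℝ (E ι)) : (lat b).Countable := by
  have : lat b = Set.range fun c : ι → ℤ => ∑ i, (c i : ℝ) • b i := by
    ext x
    constructor
    · rintro ⟨c, rfl⟩
      exact ⟨c, rfl⟩
    · rintro ⟨c, rfl⟩
      exact ⟨c, rfl⟩
  rw [this]
  exact Set.countable_range _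

theorem main (hG3 : S_G3) : S_G4 := by
  intro ι _ Q hQ
  obtain ⟨hgood, b, htile, hlat⟩ := hQ
  have hcl : IsClosed Q.body := isClosed_body Q
  have hAm : MeasurableSet Q.body := hcl.measurableSet
  have hcomp : IsCompact Q.body := Metric.isCompact_of_isClosed_isBounded hcl hgood.1
  have hpos := volume_body_pos Q hgood
  refine ⟨hcomp, hpos, b, htile, ?_⟩
  -- the atoms
  have hcls : ∀ t ∈ AddSubmonoid.closure {t : E ι | ∃ i, Q.Locked i t},
      ∀ ν : Measure (E ι), WTile Q.body ν → 1 ≤ ν {t} := by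
    intro t ht
    induction ht using AddSubmonoid.closure_induction with
    | mem x hx =>
      obtain ⟨i, hi⟩ := hx
      exact fun ν hν => hG3 ι Q hgood ν hν i x hi
    | zero => exact fun ν hν => hν.2.2
    | add x y _ _ hx hy =>
      intro ν hν
      have h1 := hy _ (wtile_shift hAm hν (hx ν hν))
      rw [Measure.map_apply (measurable_sub_const x) (measurableSet_singleton y)] at h1
      have h2 : (fun t : E ι => t - x) ⁻¹' {y} = {x + y} := by
        ext t
        simp only [mem_preimage, mem_singleton_iff, sub_eq_iff_eq_add]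
        rw [add_comm]
      rwa [h2] at h1
  intro ν hν
  have := hν.1
  have hlatm : MeasurableSet (lat b) := (countable_lat b).measurableSet
  set Z : Set (E ι × E ι) := {z | z.2 ∈ (lat b)ᶜ ∧ z.1 - z.2 ∈ Q.body} with hZ
  have hZm : MeasurableSet Z :=
    (measurable_snd hlatm.compl).inter ((measurable_fst.sub measurable_snd) hAm)
  have h0 : ∀ᵐ x : E ι, ν {t | t ∈ (lat b)ᶜ ∧ x - t ∈ Q.body} = 0 := by
    filter_upwards [htile, hν.2.1] with x hx1 hx2
    obtain ⟨c, hc, -⟩ := hx1
    set l : E ι := ∑ i, (c i : ℝ) • b i with hl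
    have hll : l ∈ lat b := ⟨c, rfl⟩
    have hl1 : 1 ≤ ν {l} := hcls l (hlat l hll) ν hν
    have hdis : Disjoint {l} {t | t ∈ (lat b)ᶜ ∧ x - t ∈ Q.body} := by
      rw [Set.disjoint_singleton_left]
      exact fun h => h.1 hll
    have hm : MeasurableSet {t : E ι | t ∈ (lat b)ᶜ ∧ x - t ∈ Q.body} :=
      hlatm.compl.inter ((measurable_const_sub x) hAm)
    have h1 := measure_union hdis hm (μ := ν)
    have h2 : ν ({l} ∪ {t | t ∈ (lat b)ᶜ ∧ x - t ∈ Q.body}) ≤ 1 := by
      rw [← hx2]
      apply measure_mono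
      rintro t (ht | ht)
      · rw [mem_singleton_iff] at ht
        rw [ht]
        exact hc
      · exact ht.2
    rw [h1] at h2
    have h3 : 1 + ν {t | t ∈ (lat b)ᶜ ∧ x - t ∈ Q.body} ≤ 1 + 0 := by
      rw [add_zero]
      exact (add_le_add_left hl1 _).trans h2
    have h4 := (ENNReal.add_le_add_iff_left ENNReal.one_ne_top).1 h3
    exact le_antisymm h4 zero_le
  have h1 : ((volume : Measure (E ι)).prod ν) Z = 0 := by
    rw [Measure.measure_prod_null hZm]
    filter_upwards [h0] with x hx
    exact hx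
  have h2 : (ν.prod (volume : Measure (E ι))) (Prod.swap ⁻¹' Z) = 0 := by
    rw [← Measure.prod_swap, Measure.map_apply measurable_swap hZm] at h1
    exact h1
  rw [Measure.measure_prod_null (measurable_swap hZm)] at h2
  have hgoal : ∀ᵐ t ∂ν, t ∈ lat b := by
    filter_upwards [h2] with t ht
    by_contra h3
    have h4 : volume {x : E ι | t ∈ (lat b)ᶜ ∧ x - t ∈ Q.body} = 0 := ht
    have h5 : {x : E ι | t ∈ (lat b)ᶜ ∧ x - t ∈ Q.body} = (fun x => x + (-t)) ⁻¹' Q.body := by
      ext x
      simp only [mem_ofPred_eq, mem_preimage, ← sub_eq_add_neg]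
      exact ⟨fun h => h.2, fun h => ⟨h3, h⟩⟩
    rw [h5, measure_preimage_add_right] at h4
    exact hpos.ne' h4
  exact hgoal

end Pool.Agent.Helper57.SPX.G4
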